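import Pool.Agent.ARD.Main2

/-!
# The chord-to-arrow map: the 6T relations summed over all directions of the other arrows but one

Let `x` be a combination of chord diagrams of degree `d` such that `φ(x)` is a combination of
relabellings and of 6T relations, each summed over all directions of the arrows that do not take
part in it, with the possible exception of one of them. Then `x` is a combination of relabellings
and 4T relations.
-/

theorem Pool.Agent.Results.MP_c2e4b2_gt.FirstObstruction.result (d : ℕ) (x : List ℕ →₀ ℚ)
    (hx : x ∈ Finsupp.supported ℚ ℚ {w : List ℕ | Pool.Agent.ARD.IsC d w})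
    (h : Pool.Agent.ARD.phi x ∈ Pool.Agent.ARD.rel6one d) : x ∈ Pool.Agent.ARD.rel4 d :=
  Pool.Agent.ARD.first_obstruction d x hx h
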