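import Pool.Agent.ARD.Frame

/-!
# The chord-to-arrow map is injective if and only if its kernel consists of isolated diagrams

`Inj d`: `φ_d` is injective (Q1 in degree `d`). `KerFI k`: the kernel of `φ_k` lies in the span of
the diagrams with an isolated chord; this follows from Q2 in degree `k`.
-/

theorem Pool.Agent.Results.MP_c2e4b2_gt.Framing.result (d : ℕ) :
    Pool.Agent.ARD.Inj d ↔ ∀ k ≤ d, Pool.Agent.ARD.KerFI k :=
  Pool.Agent.ARD.inj_iff d
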